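import Pool.Agent.H859.AL.Seq

/-!
# The Tate conjecture for divisors in all dimensions: fibre products of almost all hyperelliptic
# fibrations after bounded quadratic twists, over a given cover and infinitely many towers above it

Let `k` be any finite field of odd characteristic, `q` the number of its elements, `K = k(t)`, and let
`r ≥ 1` and `1 ≤ g_1, ..., g_r ≤ G`. For monic polynomials `f_j(x, t)` of degrees `2 g_j + 1` in `x` let `X_j`
be the surface `y ^ 2 = f_j(x, t)`, fibred over the `t`-line in curves of genus `g_j`.

Let `M₀` be a finite Galois extension of `K` of degree `2 ^ n` (with any constants and any ramification). It is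
the function field of a curve `B₀` with a map to the line which is a composition of maps of degree two. Let
`m ≠ 0` be a polynomial which is divisible by the primes of `k[t]` which are ramified in `M₀`. For each `j` a
residue class `f₁_j` modulo `m ^ 2` is given; `f₁_j` is monic of degree `2 g_j + 1`, irreducible modulo the
primes ramified in `M₀`, and its discriminant is not divisible by the square of a prime divisor of `m`.
Let `F_N` be the set of the `r`-tuples of polynomials `f_j(x) = x ^ (2 g_j + 1) + ∑ f_(j,i) x ^ i` with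
`deg f_(j,i) ≤ 2 N (2 g_j + 1 - i)` for which, for all `j`,

* the polynomial over `k` with the coefficients of `t ^ (2 N (2 g_j + 1 - i))` in the `f_(j,i)` is
  irreducible (good and irreducible reduction at infinity);
* the discriminant of `f_j` is squarefree (all the bad fibres have one node);
* `f_j` is congruent to `f₁_j` modulo `m ^ 2`.

This is a family of positive density among all the tuples of monic polynomials of the given height. For a
finite set `T` of primes of `k[t]` and `f` let `C(f, T)` be the class of the finite Galois extensions `M` of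
`K` of 2-power degree in which all `Q ∈ T` split completely and in which only such primes of `k[t]` are
ramified modulo which `f` is irreducible (there is no condition at infinity; the class contains the
constant extensions of 2-power degree in which the `Q ∈ T` split, infinitely many double covers with
ramification, and it is closed under composita).

Theorem. There is a constant `C` (depending on `k`, the `g_j`, `m`, the `f₁_j`) such that for EVERY finite set
`T` of primes `Q` of `k[t]` which split completely in `M₀` (there are infinitely many), `q ^ (deg Q) ≥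
4 G + 3`, the following holds. The field `M₀` belongs to `C(f_j, T)` for all `j` and all the tuples in `F_N`,
and for all large `N`, for all but at most `C (1 - 1 / (32 G)) ^ |T|` times the number of all the tuples in
`F_N`, there are divisors `D_1, ..., D_r` of the product of the primes in `T` such that for ALL the fields `M`
which belong to all the classes `C(f_j, T)`, ALL the fields `E` between `K` and `M` and all `j`
multiplication by two is bijective on `J_j(E)`, and all classes of 2-power order in the Tate-Shafarevich
group of `J_j` over `E` are zero, even without conditions at the places over infinity, where `J_j` is the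
Jacobian of the curve `y ^ 2 = D_j ^ (2 g_j + 1) f_j(x / D_j)`.

Consequences for the problem. Let `E` be such a field, `B_E` the curve with function field `E` and `k_E` its
field of constants. By Artin, Tate and Milne the whole Tate-Shafarevich groups of the `J_j` over `E` are
finite. Let `Y` be any smooth projective variety over `k_E`, of dimension `r + 1`, which is birational
to the fibre product over `B_E` of the `r` surfaces `y ^ 2 = D_j ^ (2 g_j + 1) f_j(x / D_j)`. Its generic
fibre over `B_E` is a product of curves, for which the Tate conjecture for divisors over `E` is the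
theorem of Zarhin on the homomorphisms of abelian varieties over function fields, and the Picard variety
of the generic fibre is the product of the `J_j`. So the Tate conjecture for divisors holds for `Y` and all `l`
(Geisser, Qin: for a fibration over a curve over a finite field it is equivalent to the Tate conjecture for
divisors on the generic fibre and the finiteness of the Tate-Shafarevich group of its Picard variety),
and with it the statement on the multiplicity of the root (Tate). So for every `ε > 0` there is ONE
polynomial `P` such that for large `N` all but `ε |F_N|` of the tuples in `F_N` have twists by divisors of `P`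
for which Q1 holds for the fibre products over the line, over `B₀`, and over infinitely many other curves
with unbounded genus, in every dimension, and also for all smooth projective varieties which are dominated
by them.

Here `J(E)` is given as the Picard group of the affine coordinate ring `E[x, y] / (y ^ 2 - F)` (the curve
has one point at infinity, which is rational), and the Tate-Shafarevich group is defined by continuous
cocycles on the absolute Galois group with values in `J` of the separable closure.

What was known. The library and this run have positive proportions of curves without a twist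
(`MP_89bcae_ag.AllTowersOverGivenCover`, surfaces). The engine is that of
`MP_60d5ce_nt.SmallTwistOfAlmostAll` (one curve, no given `M₀`); with a given `M₀`, for one surface, it was used
in `MP_7f58ab_ag.OddBrauerGroupsAfterTwist`. New here are the tuples, that is the varieties of all dimensions:
one bound for the exceptional set with the same exponential rate, and the fields which belong to all the
classes at once. `MP_89bcae_ag.FibreProductsInTowers` has (for tuples) a tower given first and density one,
without a rate and without the classes; neither contains the other. All these are by the same author, in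
this run.

Proof. A tuple is exceptional if and only if one of its members is; so the bound is the sum of the bounds
for the members, for which see `MP_60d5ce_nt.SmallTwistOfAlmostAll`: self-adjoint operators on self-dual
lattices of rank `2 g + 1` over the line which for ALL `Q ∈ T` avoid the non-distinguished operators over
the residue field whose characteristic polynomial is the product of a linear and an irreducible factor;
these are at least the share `1 / (32 g)` of all the self-adjoint operators.

Helper files: `Pool/Agent/H859/AL/` (helper859, new); `Pool/Agent/H859/TWC/`, `Pool/Agent/H859/SC/`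
(helper859), mostly after the files of the projects PJ (helper352), JM, TW (helper874) with parts by many
helpers of the run 63374d34; classification of quadratic forms: helper747; Gram matrices: helper644.
-/

set_option autoImplicit false
set_option linter.all false

namespace Pool.Agent.Results.MP_8ac872_ag.FibreProductsOverGivenCover

open Polynomial Filter IsDedekindDomain Topology
open Pool.Agent.N874.Jac (UniquelyTwoDivisible ShaTwoTrivial)
open scoped Classical

/-- The monic polynomials of degree `2 g + 1` over `k[t]` and height at most `2 N`. -/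
def Polynomials (k : Type) [Field k] (g N : ℕ) : Set k[X][X] :=
  {f | f.Monic ∧ f.natDegree = 2 * g + 1 ∧
    ∀ j ≤ 2 * g, (f.coeff j).natDegree ≤ 2 * N * (2 * g + 1 - j)}

/-- The reduction at infinity of `f`. -/
noncomputable def atInfinity {k : Type} [Field k] (g N : ℕ) (f : k[X][X]) : k[X] :=
  X ^ (2 * g + 1) + ∑ j ∈ Finset.range (2 * g + 1),
    C ((f.coeff j).coeff (2 * N * (2 * g + 1 - j))) * X ^ j

/-- The surfaces `y ^ 2 = f(x, t)`: `f` is irreducible at infinity, with squarefree discriminant, congruent
to `f₁` modulo `m ^ 2`. -/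
def Surfaces {k : Type} [Field k] (g : ℕ) (m : k[X]) (f₁ : k[X][X]) (N : ℕ) : Set k[X][X] :=
  {f ∈ Polynomials k g N | Irreducible (atInfinity g N f) ∧ Squarefree f.discr ∧
    ∀ j, m ^ 2 ∣ f.coeff j - f₁.coeff j}

/-- All `r`-tuples of monic polynomials of the degrees `2 g_j + 1` and height at most `2 N`. -/
def AllTuples (k : Type) [Field k] {r : ℕ} (g : Fin r → ℕ) (N : ℕ) : Set (Fin r → k[X][X]) :=
  {f | ∀ j, f j ∈ Polynomials k (g j) N}

/-- The family `F_N` of `r`-tuples of surfaces. -/
def Tuples {k : Type} [Field k] {r : ℕ} (g : Fin r → ℕ) (m : k[X]) (f₁ : Fin r → k[X][X]) (N : ℕ) :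
    Set (Fin r → k[X][X]) :=
  {f | ∀ j, f j ∈ Surfaces (g j) m (f₁ j) N}

/-- Multiplication by two is bijective on `J(E)`, `J` the Jacobian of `y ^ 2 = F(x)`, and every class of
2-power order in `H ^ 1 (E, J)` which is zero over the completions of `E` at all maximal ideals of `R` is
zero. -/
def NoTwoPart (R : Type) {E : Type} [Field E] [CommRing R] [IsDedekindDomain R] [Algebra R E]
    [IsFractionRing R E] (F : E[X]) : Prop :=
  UniquelyTwoDivisible F ∧ ShaTwoTrivial F R

/-- `f` is irreducible modulo `P`. -/
def IrreducibleMod {k : Type} [Field k] (f : k[X][X]) (P : k[X]) : Prop :=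
  Irreducible (f.map (Ideal.Quotient.mk (Ideal.span {P})))

/-- `P` is unramified in the extension `R` of `k[t]`. -/
def Unramified {k : Type} [Field k] (R : Type) [CommRing R] [Algebra k[X] R] (P : k[X]) : Prop :=
  ∀ w : HeightOneSpectrum R, algebraMap k[X] R P ∈ w.asIdeal → algebraMap k[X] R P ∉ w.asIdeal ^ 2

/-- `Q` splits completely in the extension `R` of `k[t]`: it is unramified, and every element of `R` is
congruent to a polynomial modulo every prime over `Q`. -/
def SplitsCompletely {k : Type} [Field k] (R : Type) [CommRing R] [Algebra k[X] R] (Q : k[X]) :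
    Prop :=
  Unramified R Q ∧ ∀ w : HeightOneSpectrum R, algebraMap k[X] R Q ∈ w.asIdeal →
    ∀ y : R, ∃ c : k[X], y - algebraMap k[X] R c ∈ w.asIdeal

/-- The (finite Galois) extension `M` of `K`, in which `R` is the integral closure of `k[t]`, belongs to
the class `C(f, T)`: it has 2-power degree, all `Q ∈ T` split completely in it, and only such primes are
ramified in it modulo which `f` is irreducible. -/
structure InClass {k : Type} [Field k] (K : Type) [Field K] (T : Finset k[X]) (f : k[X][X])
    (M : Type) [Field M] [Algebra K M] (R : Type) [CommRing R] [Algebra k[X] R] : Prop where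
  degree : ∃ n : ℕ, Module.finrank K M = 2 ^ n
  splits : ∀ Q ∈ T, SplitsCompletely R Q
  ramified : ∀ P : k[X], Irreducible P → Unramified R P ∨ IrreducibleMod f P

/-- There are divisors `D_1, ..., D_r` of the product of `T` such that for all the fields `M` which belong
to all the classes `C(f_j, T)`, for all the fields `E` between `K = k(t)` and `M` and for all `j` the
quadratic twist by `D_j` of the Jacobian of `y ^ 2 = f_j(x)`, the Jacobian of
`y ^ 2 = D_j ^ (2 g_j + 1) f_j(x / D_j)`, has no 2-part over `E`. Here `R` is the integral closure of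
`k[t]` in `M`, and `R'` that in `E`. -/
def HasGoodTwists {k : Type} [Field k] (K : Type) [Field K] [Algebra k[X] K] (T : Finset k[X])
    {r : ℕ} (f : Fin r → k[X][X]) : Prop :=
  ∃ D : Fin r → k[X], (∀ j, D j ∣ ∏ Q ∈ T, Q) ∧
  ∀ (M : Type) [Field M] [Algebra K M] [Algebra k[X] M] [IsScalarTower k[X] K M]
    [FiniteDimensional K M] [IsGalois K M] (R : Type) [CommRing R] [IsDedekindDomain R]
    [Algebra R M] [IsFractionRing R M] [Algebra k[X] R] [IsScalarTower k[X] R M]
    [IsIntegralClosure R k[X] M], (∀ j, InClass K T (f j) M R) →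
    ∀ (E : IntermediateField K M) (R' : Type) [CommRing R'] [IsDedekindDomain R'] [Algebra R' E]
      [IsFractionRing R' E] [Algebra k[X] R'] [IsScalarTower k[X] R' E]
      [IsIntegralClosure R' k[X] E] (j : Fin r),
      NoTwoPart R' (((f j).scaleRoots (D j)).map (algebraMap k[X] E))

/-- Exceptional sets of tuples. -/
theorem tuples_bad {r : ℕ} {α : Type} (F : Fin r → Set α) (hF : ∀ j, (F j).Finite)
    (G : Fin r → α → Prop) (c : Fin r → ℝ)
    (h : ∀ j, ({f ∈ F j | ¬ G j f}.ncard : ℝ) ≤ c j * ((F j).ncard : ℝ)) :
    ({f : Fin r → α | (∀ j, f j ∈ F j) ∧ ¬ ∀ j, G j (f j)}.ncard : ℝ) ≤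
      (∑ j, c j) * ({f : Fin r → α | ∀ j, f j ∈ F j}.ncard : ℝ) := by
  obtain ⟨U, hU⟩ : ∃ U : Fin r → Fin r → Set α, U = fun i => Function.update F i {x ∈ F i | ¬ G i x} :=
    ⟨_, rfl⟩
  have hUi : ∀ i, U i i = {x ∈ F i | ¬ G i x} := fun i => by rw [hU]; exact Function.update_self _ _ _
  have hUj : ∀ i j, j ≠ i → U i j = F j := fun i j hj => by
    rw [hU]; exact Function.update_of_ne hj _ _
  have hUf : ∀ i j, (U i j).Finite := by
    intro i j
    by_cases hj : j = i
    · subst hj
      rw [hUi]
      exact (hF j).subset fun f hf => hf.1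
    · rw [hUj i j hj]
      exact hF j
  obtain ⟨V, hV⟩ : ∃ V : Fin r → Set (Fin r → α), V = fun i => {f | ∀ j, f j ∈ U i j} := ⟨_, rfl⟩
  have hVc : ∀ i, (V i).Finite ∧ (V i).ncard = ∏ j, (U i j).ncard := fun i => by
    rw [hV]
    exact Pool.Agent.H859.AL.ncard_tuples (U i) (hUf i)
  have hsub : {f : Fin r → α | (∀ j, f j ∈ F j) ∧ ¬ ∀ j, G j (f j)} ⊆ ⋃ i ∈ (Finset.univ : Finset (Fin r)), V i := by
    rintro f ⟨hf, hG⟩
    push Not at hG
    obtain ⟨i, hi⟩ := hG
    rw [Set.mem_iUnion₂]
    refine ⟨i, Finset.mem_univ _, ?_⟩
    rw [hV]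
    intro j
    by_cases hj : j = i
    · subst hj
      rw [hUi]
      exact ⟨hf j, hi⟩
    · rw [hUj i j hj]
      exact hf j
  have hfinU : (⋃ i ∈ (Finset.univ : Finset (Fin r)), V i).Finite :=
    Set.Finite.biUnion (Finset.finite_toSet _) fun i _ => (hVc i).1
  have h1 := Set.ncard_le_ncard hsub hfinU
  have h2 : (⋃ i ∈ (Finset.univ : Finset (Fin r)), V i).ncard ≤ ∑ i, (V i).ncard :=
    Finset.set_ncard_biUnion_le Finset.univ V
  have hT := (Pool.Agent.H859.AL.ncard_tuples F hF).2
  have h3 : ∀ i, ((V i).ncard : ℝ) ≤ c i * ({f : Fin r → α | ∀ j, f j ∈ F j}.ncard : ℝ) := by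
    intro i
    rw [(hVc i).2, hT, Nat.cast_prod, Nat.cast_prod,
      ← Finset.mul_prod_erase Finset.univ (fun j => ((U i j).ncard : ℝ)) (Finset.mem_univ i),
      ← Finset.mul_prod_erase Finset.univ (fun j => ((F j).ncard : ℝ)) (Finset.mem_univ i), hUi i]
    have e : ∏ j ∈ Finset.univ.erase i, ((U i j).ncard : ℝ) =
        ∏ j ∈ Finset.univ.erase i, ((F j).ncard : ℝ) :=
      Finset.prod_congr rfl fun j hj => by rw [hUj i j (Finset.ne_of_mem_erase hj)]
    rw [e, ← mul_assoc]
    exact mul_le_mul_of_nonneg_right (h i) (Finset.prod_nonneg fun j _ => Nat.cast_nonneg _)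
  calc ({f : Fin r → α | (∀ j, f j ∈ F j) ∧ ¬ ∀ j, G j (f j)}.ncard : ℝ)
      ≤ ∑ i, ((V i).ncard : ℝ) := by exact_mod_cast h1.trans h2
    _ ≤ ∑ i, c i * ({f : Fin r → α | ∀ j, f j ∈ F j}.ncard : ℝ) := Finset.sum_le_sum fun i _ => h3 i
    _ = _ := by rw [Finset.sum_mul]

/-- Let `k` be a finite field of odd characteristic, `K = k(t)`, `M₀` a finite Galois extension of `K` of
degree `2 ^ n`, `m ≠ 0`, and for `j < r` let `1 ≤ g_j ≤ G` and `f₁_j` be monic of degree `2 g_j + 1` over
`k[t]` such that the discriminant of `f₁_j` is not divisible by the square of a prime divisor of `m`, the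
primes which are ramified in `M₀` divide `m`, and `f₁_j` is irreducible modulo these. The family `F_N` has
positive density in the set of all tuples of the same height. Infinitely many primes of `k[t]` split
completely in `M₀`. There is a constant `C` such that for every finite set `T` of such primes with residue
fields of at least `4 G + 3` elements: `M₀` belongs to the classes `C(f_j, T)` for all the tuples in `F_N`;
and for all large `N` all but at most `C (1 - 1 / (32 G)) ^ |T| |F_N|` members of `F_N` have divisors `D_j` of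
the product of the primes in `T` such that for ALL the fields `M` which belong to the classes `C(f_j, T)`
for all `j` and ALL the fields `E` between `K` and `M` multiplication by two is bijective on all `J_j(E)`
and the 2-primary parts of the Tate-Shafarevich groups of all `J_j` over `E` are zero, where `J_j` is the
quadratic twist by `D_j` of the Jacobian of `y ^ 2 = f_j(x)`. -/
theorem result (G r : ℕ) (g : Fin r → ℕ) (hg : ∀ j, 1 ≤ g j) (hG : ∀ j, g j ≤ G)
    (k : Type) [Field k] [Finite k] (hp : (2 : k) ≠ 0)
    (K : Type) [Field K] [Algebra k[X] K] [IsFractionRing k[X] K]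
    (M₀ : Type) [Field M₀] [Algebra K M₀] [Algebra k[X] M₀] [IsScalarTower k[X] K M₀]
    [FiniteDimensional K M₀] [IsGalois K M₀]
    (R₀ : Type) [CommRing R₀] [IsDedekindDomain R₀] [Algebra R₀ M₀] [IsFractionRing R₀ M₀]
    [Algebra k[X] R₀] [IsScalarTower k[X] R₀ M₀] [IsIntegralClosure R₀ k[X] M₀]
    (n : ℕ) (hn : Module.finrank K M₀ = 2 ^ n) (m : k[X]) (hm : m ≠ 0)
    (f₁ : Fin r → k[X][X]) (hf₁ : ∀ j, (f₁ j).Monic) (hd₁ : ∀ j, (f₁ j).natDegree = 2 * g j + 1)
    (hdisc : ∀ (j : Fin r) (P : k[X]), Irreducible P → P ∣ m → ¬ P ^ 2 ∣ (f₁ j).discr)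
    (hram : ∀ P : k[X], Irreducible P →
      Unramified R₀ P ∨ (P ∣ m ∧ ∀ j, IrreducibleMod (f₁ j) P)) :
    (∀ N : ℕ, (AllTuples k g N).Finite) ∧
    (∃ c : ℝ, 0 < c ∧ ∀ᶠ N : ℕ in atTop, 0 < (Tuples g m f₁ N).ncard ∧
      c * ((AllTuples k g N).ncard : ℝ) ≤ ((Tuples g m f₁ N).ncard : ℝ)) ∧
    {Q : k[X] | Q.Monic ∧ Irreducible Q ∧ SplitsCompletely R₀ Q}.Infinite ∧
    ∃ C : ℝ, ∀ T : Finset k[X],
      (∀ Q ∈ T, Q.Monic ∧ Irreducible Q ∧ SplitsCompletely R₀ Q ∧
        4 * G + 3 ≤ Nat.card k ^ Q.natDegree) →
      (∀ N : ℕ, ∀ f ∈ Tuples g m f₁ N, ∀ j, InClass K T (f j) M₀ R₀) ∧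
      ∀ᶠ N : ℕ in atTop, ({f ∈ Tuples g m f₁ N | ¬ HasGoodTwists K T f}.ncard : ℝ) ≤
        C * (1 - 1 / (32 * G)) ^ T.card * ((Tuples g m f₁ N).ncard : ℝ) := by
  have hall : ∀ g' N, Polynomials k g' N =
      {f : k[X][X] | Pool.Agent.H859.PJ.HtA g' (2 * N) f} := by
    intro g' N
    ext f
    exact ⟨fun h => ⟨h.1, h.2.1, h.2.2⟩, fun h => ⟨h.mon, h.deg, h.ht⟩⟩
  have hfam : ∀ j N, Surfaces (g j) m (f₁ j) N =
      Pool.Agent.H859.AL.Fam (g j) N (m ^ 2) (f₁ j) := by
    intro j N
    ext f
    constructor
    · rintro ⟨h1, h2, h3, h4⟩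
      exact ⟨⟨h1.1, h1.2.1, h1.2.2⟩, (Pool.Agent.H859.AL.irrInf_iff N f).2 h2,
        (Pool.Agent.H859.AL.sq_discr h1.1 h1.2.1).2 h3, h4⟩
    · rintro ⟨h1, h2, h3, h4⟩
      exact ⟨⟨h1.mon, h1.deg, h1.ht⟩, (Pool.Agent.H859.AL.irrInf_iff N f).1 h2,
        (Pool.Agent.H859.AL.sq_discr h1.mon h1.deg).1 h3, h4⟩
  have hGM := fun j => Pool.Agent.H859.TWC.goodM_sq hm (hf₁ j) (hd₁ j) (hdisc j)
  have hfin : ∀ g' N, (Polynomials k g' N).Finite := fun g' N => by
    rw [hall]
    exact (Pool.Agent.H859.N415.PJMAIN.ht_card (k := k) g' (2 * N)).1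
  have hfinF : ∀ j N, (Surfaces (g j) m (f₁ j) N).Finite := fun j N =>
    (hfin (g j) N).subset fun f hf => hf.1
  have hq : (0 : ℝ) < Nat.card k := by exact_mod_cast Nat.card_pos
  -- the density for each `j`
  have hpos : ∀ j, ∃ c : ℝ, 0 < c ∧ ∀ᶠ N : ℕ in atTop, 0 < (Surfaces (g j) m (f₁ j) N).ncard ∧
      c * ((Polynomials k (g j) N).ncard : ℝ) ≤ ((Surfaces (g j) m (f₁ j) N).ncard : ℝ) := by
    intro j
    obtain ⟨c, hc, N₀, hN₀⟩ := Pool.Agent.H859.AL.fam_pos (hg j) hp (hGM j)
    refine ⟨c / (Nat.card k : ℝ) ^ (2 * g j + 1), by positivity, ?_⟩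
    filter_upwards [eventually_ge_atTop N₀] with N hN
    obtain ⟨hF, hle⟩ := hN₀ N hN
    rw [hfam]
    have h1 : (0 : ℝ) < ((Pool.Agent.H859.AL.Fam (g j) N (m ^ 2) (f₁ j)).ncard : ℝ) :=
      lt_of_lt_of_le (by positivity) hle
    refine ⟨by exact_mod_cast h1, ?_⟩
    have h2 : ((Polynomials k (g j) N).ncard : ℝ) ≤
        (Nat.card k : ℝ) ^ (2 * N * Pool.Agent.H859.PJ.ddA (g j)) *
          (Nat.card k : ℝ) ^ (2 * g j + 1) := by
      rw [hall, ← pow_add]
      exact_mod_cast (Pool.Agent.H859.N415.PJMAIN.ht_card (k := k) (g j) (2 * N)).2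
    calc c / (Nat.card k : ℝ) ^ (2 * g j + 1) * ((Polynomials k (g j) N).ncard : ℝ)
        ≤ c / (Nat.card k : ℝ) ^ (2 * g j + 1) *
          ((Nat.card k : ℝ) ^ (2 * N * Pool.Agent.H859.PJ.ddA (g j)) *
            (Nat.card k : ℝ) ^ (2 * g j + 1)) := by gcongr
      _ = c * (Nat.card k : ℝ) ^ (2 * N * Pool.Agent.H859.PJ.ddA (g j)) := by field_simp
      _ ≤ _ := hle
  have hAll := fun N => Pool.Agent.H859.AL.ncard_tuples (fun j : Fin r => Polynomials k (g j) N)
    fun j => hfin (g j) N
  have hTup := fun N => Pool.Agent.H859.AL.ncard_tuples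
    (fun j : Fin r => Surfaces (g j) m (f₁ j) N) fun j => hfinF j N
  refine ⟨fun N => (hAll N).1, ?_, ?_, ?_⟩
  · choose c hc hcN using hpos
    refine ⟨∏ j, c j, Finset.prod_pos fun j _ => hc j, ?_⟩
    filter_upwards [eventually_all.2 hcN] with N hN
    have e1 : (Tuples g m f₁ N).ncard = ∏ j, (Surfaces (g j) m (f₁ j) N).ncard := (hTup N).2
    have e2 : (AllTuples k g N).ncard = ∏ j, (Polynomials k (g j) N).ncard := (hAll N).2
    rw [e1, e2]
    refine ⟨Finset.prod_pos fun j _ => (hN j).1, ?_⟩
    rw [Nat.cast_prod, Nat.cast_prod, ← Finset.prod_mul_distrib]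
    exact Finset.prod_le_prod (fun j _ => mul_nonneg (hc j).le (Nat.cast_nonneg _))
      fun j _ => (hN j).2
  · intro hfin
    obtain ⟨S, hcard, hS⟩ := Pool.Agent.H859.AL.exists_T (k := k) (K := K) M₀ R₀ 0
      (hfin.toFinset.card + 1)
    have hsub : S ⊆ hfin.toFinset := by
      intro Q hQ
      rw [Set.Finite.mem_toFinset]
      exact ⟨(hS Q hQ).1, (hS Q hQ).2.1, fun w hw => ((hS Q hQ).2.2.1 w hw).1,
        fun w hw => ((hS Q hQ).2.2.1 w hw).2⟩
    have := Finset.card_le_card hsub
    omega
  · have hfa := fun j => Pool.Agent.H859.AL.final_almost (hg j) hp K (hGM j)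
    choose C hC0 hC using hfa
    refine ⟨∑ j, |C j|, fun T hT => ⟨?_, ?_⟩⟩
    · intro N f hf j
      refine ⟨⟨n, hn⟩, fun Q hQ => (hT Q hQ).2.2.1, fun P hP => ?_⟩
      rcases hram P hP with h | ⟨h, h'⟩
      · exact Or.inl h
      · right
        have hc : Pool.Agent.N352.PJ.Cg P (f j) (f₁ j) := fun i =>
          (h.trans (dvd_pow_self m two_ne_zero)).trans ((hf j).2.2.2 i)
        show Irreducible ((f j).map (Ideal.Quotient.mk (Ideal.span {P})))
        rw [Pool.Agent.H859.TWC.cg_map hc]
        exact h' j
    · have hCj : ∀ j : Fin r, ∃ N₀ : ℕ, ∀ N ≥ N₀,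
          ({f ∈ Pool.Agent.H859.AL.Fam (g j) N (m ^ 2) (f₁ j) |
            ¬ Pool.Agent.H859.AL.GoodTw K T f}.ncard : ℝ) ≤
            C j * (1 - 1 / (32 * (g j))) ^ T.card *
              ((Pool.Agent.H859.AL.Fam (g j) N (m ^ 2) (f₁ j)).ncard : ℝ) := fun j =>
        hC j T fun Q hQ => ⟨(hT Q hQ).1, (hT Q hQ).2.1,
          (show 4 * g j + 3 ≤ Nat.card k ^ Q.natDegree from by
            have h1 := (hT Q hQ).2.2.2
            have h2 := hG j
            omega)⟩
      choose N₀ hN₀ using hCj
      filter_upwards [eventually_ge_atTop (Finset.univ.sup N₀)] with N hN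
      have hb : ∀ j : Fin r, ({f ∈ Surfaces (g j) m (f₁ j) N |
          ¬ Pool.Agent.H859.AL.GoodTw K T f}.ncard : ℝ) ≤
          |C j| * (1 - 1 / (32 * G)) ^ T.card * ((Surfaces (g j) m (f₁ j) N).ncard : ℝ) := by
        intro j
        have h1 := hN₀ j N ((Finset.le_sup (f := N₀) (Finset.mem_univ j)).trans hN)
        rw [hfam]
        refine h1.trans ?_
        have hg' : (1 : ℝ) ≤ g j := by exact_mod_cast hg j
        have hG' : (g j : ℝ) ≤ G := by exact_mod_cast hG j
        have hρ1 : (1 : ℝ) / (32 * g j) ≤ 1 / 32 := by
          apply one_div_le_one_div_of_le (by norm_num)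
          linarith
        have hρ2 : (1 : ℝ) / (32 * G) ≤ 1 / (32 * g j) := by
          apply one_div_le_one_div_of_le (by linarith)
          linarith
        have hρ3 : (0 : ℝ) ≤ 1 - 1 / (32 * g j) := by linarith
        have h2 : (1 - 1 / (32 * (g j : ℝ))) ^ T.card ≤ (1 - 1 / (32 * (G : ℝ))) ^ T.card :=
          pow_le_pow_left₀ hρ3 (by linarith) _
        exact mul_le_mul_of_nonneg_right (mul_le_mul (le_abs_self _) h2 (pow_nonneg hρ3 _)
          (abs_nonneg _)) (Nat.cast_nonneg _)
      have h3 := tuples_bad (fun j : Fin r => Surfaces (g j) m (f₁ j) N) (fun j => hfinF j N)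
        (fun _ f => Pool.Agent.H859.AL.GoodTw K T f)
        (fun j => |C j| * (1 - 1 / (32 * G)) ^ T.card) hb
      rw [Finset.sum_mul]
      refine le_trans ?_ h3
      have hfinT : {f : Fin r → k[X][X] | (∀ j, f j ∈ Surfaces (g j) m (f₁ j) N) ∧
          ¬ ∀ j, Pool.Agent.H859.AL.GoodTw K T (f j)}.Finite :=
        (hTup N).1.subset fun f hf => hf.1
      have hsub : {f ∈ Tuples g m f₁ N | ¬ HasGoodTwists K T f} ⊆
          {f : Fin r → k[X][X] | (∀ j, f j ∈ Surfaces (g j) m (f₁ j) N) ∧
            ¬ ∀ j, Pool.Agent.H859.AL.GoodTw K T (f j)} := by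
        rintro f ⟨hf, hno⟩
        refine ⟨hf, fun hgt => hno ?_⟩
        have huse := fun j : Fin r => Pool.Agent.H859.AL.good_use hp K
          (fun Q hQ => ⟨(hT Q hQ).1, (hT Q hQ).2.1⟩)
          (show Pool.Agent.H859.PJ.HtA (g j) (2 * N) (f j) from by
            have := hf j
            rw [hfam] at this
            exact this.1)
          (show _ from by
            have := hf j
            rw [hfam] at this
            exact this.2.1)
          (show _ from by
            have := hf j
            rw [hfam] at this
            exact this.2.2.1) (hgt j)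
        choose D hD h using huse
        refine ⟨D, hD, ?_⟩
        intro M _ _ _ _ _ _ R _ _ _ _ _ _ _ hM E R' _ _ _ _ _ _ _ j
        obtain ⟨n, hn⟩ := (hM j).degree
        exact h j M R n hn (fun Q hQ w hw => ⟨((hM j).splits Q hQ).1 w hw,
          ((hM j).splits Q hQ).2 w hw⟩) (hM j).ramified E R'
      exact_mod_cast Set.ncard_le_ncard hsub hfinT

end Pool.Agent.Results.MP_8ac872_ag.FibreProductsOverGivenCover
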