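import Pool.Agent.H367.OS.GTate
import Pool.Agent.H367.OS.FldP

/-!
# The Tate conjecture for divisors over finite fields and single pieces of one sequence of cubics

A relation `r` of size `m` is one of the equations `x_i x_j = x_l`, `x_i + x_j = x_l`, `x_i = 1` with
`i, j, l < m`; the relations are numbered, the number of `r` is `ν(r)` (`relNum`). Let `G_m` be the
following polynomial with integral coefficients (`univG ℤ m`). There are variables `x_i` and `z_ij` for
`i, j < m`, a variable `c_r` for every relation `r`, and variables `y_{r,l}` for all relations `r` and
`l < (m + 1) 2 ^ ν(r)`. The equations (`eqnG`) are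

  `z_ij - x_i x_j`,  `c_r ^ 2 - c_r`,  `c_r ρ_r`,  `(1 - c_r) y_{r,l}`,

where `ρ_r` is the linear polynomial `z_ij - x_l`, `x_i + x_j - x_l` or `x_i - 1` of the relation.
`G_m` is the sum of the equations multiplied by further variables `t_e`, one for each equation. It has
degree three. Let `C_m` be the affine cubic hypersurface `G_m = 1` (`cubG R m` over the ring `R`); it is
smooth over the integers.

Let `p` be a prime number and let `M` be the category of motives over `𝔽_p` with rational
coefficients, for numerical equivalence, a semisimple abelian category (Jannsen) with Tate twists `N ↦
N(a)`. As the Künneth components of the diagonal are algebraic (Katz, Messing), every motive is the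
direct sum of its parts of the various weights. For a separated scheme `X` of finite type over `𝔽_p`
let `D.G w j X = Gr^W_w H^j_c(X)` be the cohomology in the degree `j - w` of the part of weight `w` of
the weight complex of `X` (Gillet, Soulé, Bondarko; a bounded complex of Chow motives); for smooth
projective `Y` it is `h^j(Y)` if `j = w`, and zero otherwise.

For a motive `N` let `rk N r` be the dimension of `Hom(1(-r), N)`, the rank of the group of the
algebraic classes of codimension `r`, and let `mu N r` be the multiplicity of `p ^ r` as an eigenvalue
of Frobenius on `N`. Classes which are independent modulo numerical equivalence are independent in the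
`ℓ`-adic cohomology, so `rk N r ≤ mu N r`, and both numbers are additive (`IsRanks`).

For a smooth projective variety `Y` over a finite field `K` of characteristic `p` let `Q1 K Y` be the
statement of question Q1 for `Y` and all `ℓ`. For `K = 𝔽_p` it is equivalent to the equality `rk
(h^2(Y)) 1 = mu (h^2(Y)) 1` (the group of the divisors modulo numerical equivalence has the same rank
as the one for homological equivalence, and Q1 says that the first and the last of three dimensions `a
≤ b ≤ c` are equal). For a variety `Y` over `K` it follows from the statement for `Y`, regarded as a
scheme over `𝔽_p` (its cohomology is the induced representation). This is the hypothesis `describes`.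

**Theorem.** Let `E_m` be the number of the equations, and for `N ∈ ℕ` let `e = (m + 1) N + E_m - 1`
(`esh m N`).

(1) Question Q1 has a positive answer for all smooth projective varieties over all finite fields of
characteristic `p` if and only if for infinitely many `m`, for the single motives
`Gr^W_{2+2e} H^{3+2e}_c(C_m)`, for all `N`, the rank of the group of the algebraic classes is the
multiplicity of `p ^ {1+e}`.

(2) In every codimension `r`: the rank of the group of the algebraic classes of codimension `r` modulo
numerical equivalence is the multiplicity of `p ^ r` in `h^{2r}(Y)`, for all smooth projective `Y` over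
`𝔽_p`, if and only if for infinitely many `m` the same is true for the single motives
`Gr^W_{2r+2e} H^{2r+2e+1}_c(C_m)`, for all `N`. (This is the strong form of the Tate conjecture.)

(3) The hypersurfaces `C_m` decide the statement `T(N)`: `rk N r = mu N r` for all `r` (`TateObj`),
for the pieces of the cohomology (`DecidesPlain`; on a piece of weight `2 r` this is the equality for
`r`, and there is no condition on the pieces of odd weight). For every affine scheme `Spec B` of
finite type over `𝔽_p` and all large `m` there is an `N` such that for `0 ≤ w ≤ 2 m + 1` and all `j`
the statement for `Gr^W_w H^j_c(Spec B)` is equivalent to the one for `Gr^W_{w+2e} H^{j+2e+1}_c(C_m)`.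
For every smooth projective `Y` over `𝔽_p`, every `d` and all large `m` there is an `e'` such that for
all `i ≤ d` the statement for `h^i(Y)` is equivalent to the one for `Gr^W_{i+2e'} H^{i+2e'+1}_c(C_m)`.
The statements for the pieces of one `C_m` imply those for all pieces of a given separated scheme `X`
of finite type.

(4) `G_m` has integral coefficients and degree at most three, and `C_m` is smooth over all rings.

The hypotheses on the motives are standard (`IsMot`): exact sequences, affine bundles, disjoint unions,
the cohomology of affine spaces, the weights of `H^j_c(X)` are between `0` and `2 dim X`, monomorphisms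
split, `Gr^W_w H^j_c(X)` is a direct factor of `h^w(Y)` for some smooth projective `Y` (it is a
subquotient, by the weight complex), and every smooth projective scheme has an affine bundle whose total
space is affine (Jouanolou).

Idea of the proof. The projection of `C_m` to the affine space with the coordinates `x, z, c, y` is an
affine bundle over the complement of the zero set `W_m` of the equations. The scheme `W_m` is the
disjoint union, over all sets `s` of relations (`c_r = 1` for `r ∈ s` and `c_r = 0` for the others), of
the products `X_s × 𝔸 ^ ((m + 1) N(s))`, where `X_s` is the affine scheme defined by the relations in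
`s` and `N(s) = ∑_{r ∈ s} 2 ^ ν(r)`. The numbers `N(s)` are different, and the weights of the
cohomology of `X_s` are between `0` and `2 m`. So the part of weight `w + 2 (m + 1) N(s)`,
`0 ≤ w ≤ 2 m + 1`, of the cohomology of `W_m` is the twist of the part of weight `w` of the cohomology of
`X_s`, and it is different from the weight of the cohomology of the affine space. Every affine scheme of
finite type over a prime field is an `X_s`, for all large `m`. The pieces of the cohomology of an
arbitrary scheme are direct factors of those of a disjoint union of affine schemes.

The universal system of relations is the one of helper854 (`Pool.Agent.H854.SQ`).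
-/

set_option autoImplicit false

open CategoryTheory CategoryTheory.Limits AlgebraicGeometry Pool.Agent.Y116.UV Pool.Agent.Z125.UN
  Pool.Agent.Q193.LT Pool.Agent.H854.SQ Pool.Agent.H367.OS

universe v u



namespace Pool.Agent.Results.MP_8ac872_ag.PiecesOfOneSequence

/-- **The Tate conjecture for divisors over finite fields and single pieces of one sequence of cubic
hypersurfaces over the integers.** See the explanations above. -/
theorem result {p : ℕ} [Fact p.Prime] {M : Type u} [Category.{v} M] [Abelian M]
    {D : Pieces (ZMod p) M} (h : IsMot D) {rk mu : M → ℤ → ℕ} (ranks : IsRanks D rk mu)
    {Q1 : ∀ (K : Type) [Field K] [Finite K] [CharP K p], Sch K → Prop}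
    (describes : FromFp p Projective Q1 fun Y => rk (D.G 2 2 Y) 1 = mu (D.G 2 2 Y) 1) :
    (AllFp p Projective Q1 ↔ ∃ᶠ m in Filter.atTop, ∀ N : ℕ,
      rk (D.G (2 * (1 + esh m N)) (2 * (1 + esh m N) + 1) (cubG (ZMod p) m)) (1 + esh m N) =
        mu (D.G (2 * (1 + esh m N)) (2 * (1 + esh m N) + 1) (cubG (ZMod p) m)) (1 + esh m N)) ∧
    (∀ r : ℕ,
      (∀ Y : Sch (ZMod p), SmoothProj Y →
        rk (D.G (2 * r) (2 * r) Y) r = mu (D.G (2 * r) (2 * r) Y) r) ↔
      ∃ᶠ m in Filter.atTop, ∀ N : ℕ,
        rk (D.G (2 * (r + esh m N)) (2 * (r + esh m N) + 1) (cubG (ZMod p) m)) (r + esh m N) =
          mu (D.G (2 * (r + esh m N)) (2 * (r + esh m N) + 1) (cubG (ZMod p) m)) (r + esh m N)) ∧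
    DecidesPlain D (TateObj rk mu) ∧
    ∀ m : ℕ, (univG ℤ m).totalDegree ≤ 3 ∧
      ∀ (R : Type) [CommRing R], MvPolynomial.map (Int.castRingHom R) (univG ℤ m) = univG R m ∧
        Smooth (cubG R m).hom := by
  have h2 := fun r => ranks_weight (isPrimeField_zmod p) h ranks r
  refine ⟨?_, h2, decides_ranks (isPrimeField_zmod p) h ranks, cubG_facts⟩
  have h3 := h2 1
  rw [Nat.cast_one] at h3
  exact describes.all.trans h3

end Pool.Agent.Results.MP_8ac872_ag.PiecesOfOneSequence
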